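import Mathlib

/-!
# Project PN: residues of partition functions after thin random changes of the set of parts, statements

`pt A n` is the number of partitions of `n` into parts from `A`.  Every `n` is changed (removed from `S` if it is
in `S`, added if it is not) independently with probability at least `c (n + 1) ^ (-δ)`, `δ < 1 / 2`, and at most
`1 / 2`.  Almost surely the new partition function is normal modulo every `M`.

Every part is a proposition `S_...`; the job is to prove `theorem t_... : S_...`.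
-/

set_option autoImplicit false

open MeasureTheory Filter Topology Finset

namespace Pool.Agent.U204.PN

/-- the number of partitions of `n` into parts from `A` -/
noncomputable def pt (A : Set ℕ) (n : ℕ) : ℕ := Nat.card {p : n.Partition // ∀ i ∈ p.parts, i ∈ A}

/-- the changed set: `n` is in it iff exactly one of `n ∈ S` and `ω n = true` holds -/
def chg (S : Set ℕ) (ω : ℕ → Bool) : Set ℕ := {n | n ∈ S ↔ ω n = false}

/-- the linear forms in consecutive values of the partition function -/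
noncomputable def F (A : Set ℕ) (k : ℕ) (c : Fin (k + 1) → ℤ) (n : ℕ) : ℤ :=
  ∑ j, c j * (pt A (n + j) : ℤ)

/-- the additive characters modulo `M` of these forms -/
noncomputable def X (A : Set ℕ) (M k : ℕ) (c : Fin (k + 1) → ℤ) (n : ℕ) : ℂ :=
  Complex.exp (2 * Real.pi * Complex.I * (F A k c n : ℂ) / (M : ℂ))

/-- the number of `1 ≤ i ≤ D` for which the form is not divisible by `M` -/
noncomputable def J (A : Set ℕ) (M k : ℕ) (c : Fin (k + 1) → ℤ) (D : ℕ) : ℕ := by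
  classical exact ((Icc 1 D).filter fun i => ¬ (M : ℤ) ∣ F A k c i).card

/-- `f` depends on finitely many coordinates only -/
def Loc {E : Type} (f : (ℕ → Bool) → E) : Prop :=
  ∃ L : ℕ, ∀ ω ω' : ℕ → Bool, (∀ i < L, ω i = ω' i) → f ω = f ω'

/-- LOC: `pt A x` depends only on the parts at most `x` -/
def S_LOC : Prop := ∀ (A B : Set ℕ) (x : ℕ), (∀ m, 1 ≤ m → m ≤ x → (m ∈ A ↔ m ∈ B)) →
  pt A x = pt B x

/-- ONE: the effect of one large part -/
def S_ONE : Prop := ∀ (A : Set ℕ) (m x : ℕ), m ≤ x → x < 2 * m → m ∉ A →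
  pt (insert m A) x = pt A x + pt A (x - m)

/-- AVG: averaging over one coordinate -/
def S_AVG : Prop := ∀ (μ : ℕ → Measure Bool) [∀ n, IsProbabilityMeasure (μ n)] (n : ℕ),
  (∀ f : (ℕ → Bool) → ℝ, Loc f → Integrable f (Measure.infinitePi μ) ∧
    ∫ ω, f ω ∂(Measure.infinitePi μ) =
      ∫ ω, ((1 - (μ n).real {true}) * f (Function.update ω n false) +
        (μ n).real {true} * f (Function.update ω n true)) ∂(Measure.infinitePi μ)) ∧
  (∀ f : (ℕ → Bool) → ℂ, Loc f → Measurable f ∧ Integrable f (Measure.infinitePi μ) ∧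
    ∫ ω, f ω ∂(Measure.infinitePi μ) =
      ∫ ω, ((1 - ((μ n).real {true} : ℂ)) * f (Function.update ω n false) +
        ((μ n).real {true} : ℂ) * f (Function.update ω n true)) ∂(Measure.infinitePi μ))

/-- TAIL: few zeros of a linear form are unlikely -/
def S_TAIL : Prop := S_LOC → S_ONE → S_AVG → ∀ (μ : ℕ → Measure Bool)
  [∀ n, IsProbabilityMeasure (μ n)] (S : Set ℕ) (M k : ℕ) (c : Fin (k + 1) → ℤ),
  ¬ (M : ℤ) ∣ c (Fin.last k) → ∀ (D : ℕ) (η l : ℝ), 0 ≤ η → 0 ≤ l →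
  (∀ m ≤ D + k, η ≤ (μ m).real {true} ∧ (μ m).real {true} ≤ 1 / 2) →
  ∫ ω, Real.exp (-(l * J (chg S ω) M k c D)) ∂(Measure.infinitePi μ) ≤
    (1 - η * (1 - Real.exp (-l))) ^ D

/-- COV: correlations -/
def S_COV : Prop := S_LOC → S_ONE → S_AVG → ∀ M : ℕ, 1 ≤ M → ∃ κ : ℝ, 0 < κ ∧ κ ≤ 1 ∧
  ∀ (μ : ℕ → Measure Bool) [∀ n, IsProbabilityMeasure (μ n)] (S : Set ℕ) (k : ℕ)
  (c : Fin (k + 1) → ℤ) (n n' D : ℕ) (η : ℝ), n + k + D < n' → 2 * D + k < n' → 0 ≤ η →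
  (∀ m < n', η ≤ (μ m).real {true} ∧ (μ m).real {true} ≤ 1 / 2) →
  ‖∫ ω, X (chg S ω) M k c n' * (starRingEnd ℂ) (X (chg S ω) M k c n) ∂(Measure.infinitePi μ)‖ ≤
    ∫ ω, Real.exp (-(κ * η * J (chg S ω) M k c D)) ∂(Measure.infinitePi μ)

/-- MOM: the second moment -/
def S_MOM : Prop := S_LOC → S_AVG → S_TAIL → S_ONE → S_COV → ∀ (μ : ℕ → Measure Bool)
  [∀ n, IsProbabilityMeasure (μ n)] (S : Set ℕ) (c₀ δ : ℝ), 0 < c₀ → 0 < δ → δ < 1 / 2 →
  (∀ n : ℕ, c₀ * ((n : ℝ) + 1) ^ (-δ) ≤ (μ n).real {true} ∧ (μ n).real {true} ≤ 1 / 2) →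
  ∀ (M k : ℕ) (c : Fin (k + 1) → ℤ), 1 ≤ M → ¬ (M : ℤ) ∣ c (Fin.last k) →
  ∃ C : ℝ, ∀ N : ℕ, 1 ≤ N →
    ∫ ω, ‖∑ n ∈ range N, X (chg S ω) M k c n‖ ^ 2 ∂(Measure.infinitePi μ) ≤
      C * (N : ℝ) ^ (1 + 2 * δ)

/-- SLLN: from second moments to almost sure convergence -/
def S_SLLN : Prop := ∀ (P : Measure (ℕ → Bool)) [IsProbabilityMeasure P]
  (Y : ℕ → (ℕ → Bool) → ℂ), (∀ n, Measurable (Y n)) → (∀ n ω, ‖Y n ω‖ ≤ 1) → ∀ C t : ℝ, t < 2 →
  (∀ N : ℕ, 1 ≤ N → ∫ ω, ‖∑ n ∈ range N, Y n ω‖ ^ 2 ∂P ≤ C * (N : ℝ) ^ t) →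
  ∀ᵐ ω ∂P, Tendsto (fun N : ℕ => (∑ n ∈ range N, Y n ω) / (N : ℂ)) atTop (𝓝 0)

open Classical in
/-- FOUR: finite Fourier inversion -/
def S_FOUR : Prop := ∀ (M k : ℕ) (a : ℕ → ℤ), 1 ≤ M →
  (∀ k' < k, ∀ c : Fin (k' + 1) → ℤ, ¬ (M : ℤ) ∣ c (Fin.last k') →
    Tendsto (fun N : ℕ => (∑ n ∈ range N, Complex.exp (2 * Real.pi * Complex.I *
      ((∑ j, c j * a (n + j) : ℤ) : ℂ) / (M : ℂ))) / (N : ℂ)) atTop (𝓝 0)) →
  ∀ b : Fin k → ZMod M, Tendsto (fun N : ℕ =>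
    (((range N).filter fun n => ∀ j : Fin k, ((a (n + j) : ℤ) : ZMod M) = b j).card : ℝ) / N)
    atTop (𝓝 (((M : ℝ) ^ k)⁻¹))

/-- THIN: the number of changes -/
def S_THIN : Prop := ∀ (μ : ℕ → Measure Bool) [∀ n, IsProbabilityMeasure (μ n)] (c₁ t : ℝ),
  0 < t → t < 1 → (∀ n : ℕ, (μ n).real {true} ≤ c₁ * ((n : ℝ) + 1) ^ (-t)) →
  ∀ᵐ ω ∂(Measure.infinitePi μ), ∃ C : ℝ, ∀ N : ℕ,
    (((range N).filter fun n => ω n = true).card : ℝ) ≤ C * (N : ℝ) ^ (1 - t)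

/-- the values of the characters depend on finitely many coordinates -/
theorem loc_X (h : S_LOC) (S : Set ℕ) (M k : ℕ) (c : Fin (k + 1) → ℤ) (n : ℕ) :
    Loc fun ω => X (chg S ω) M k c n := by
  refine ⟨n + k + 1, fun ω ω' hw => ?_⟩
  have hF : F (chg S ω) k c n = F (chg S ω') k c n := by
    refine Finset.sum_congr rfl fun j _ => ?_
    have hj : (j : ℕ) < k + 1 := j.2
    rw [h (chg S ω) (chg S ω') (n + j) fun m _ hm => by
      simp only [chg, Set.mem_ofPred_eq]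
      rw [hw m (by omega)]]
  show X _ M k c n = X _ M k c n
  rw [X, X, hF]

theorem norm_X (A : Set ℕ) (M k : ℕ) (c : Fin (k + 1) → ℤ) (n : ℕ) : ‖X A M k c n‖ ≤ 1 := by
  rw [X, Complex.norm_exp]
  have : (2 * Real.pi * Complex.I * (F A k c n : ℂ) / (M : ℂ)).re = 0 := by
    have h2 : (2 * Real.pi * Complex.I * (F A k c n : ℂ) / (M : ℂ)) =
        ((2 * Real.pi * (F A k c n : ℝ) / (M : ℝ) : ℝ) : ℂ) * Complex.I := by
      push_cast; ring
    rw [h2, Complex.re_ofReal_mul, Complex.I_re, mul_zero]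
  rw [this, Real.exp_zero]

open Classical in
/-- the assembly -/
theorem assembly (h1 : S_LOC) (h2 : S_ONE) (h3 : S_AVG) (h4 : S_TAIL) (h5 : S_COV) (h6 : S_MOM)
    (h7 : S_SLLN) (h8 : S_FOUR) (μ : ℕ → Measure Bool) [∀ n, IsProbabilityMeasure (μ n)]
    (S : Set ℕ) (c₀ δ : ℝ) (hc : 0 < c₀) (hδ : 0 < δ) (hδ2 : δ < 1 / 2)
    (hμ : ∀ n : ℕ, c₀ * ((n : ℝ) + 1) ^ (-δ) ≤ (μ n).real {true} ∧ (μ n).real {true} ≤ 1 / 2) :
    ∀ᵐ ω ∂(Measure.infinitePi μ), ∀ M k : ℕ, 1 ≤ M → ∀ b : Fin k → ZMod M,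
      Tendsto (fun N : ℕ => (((range N).filter fun n => ∀ j : Fin k,
        (pt (chg S ω) (n + j) : ZMod M) = b j).card : ℝ) / N) atTop (𝓝 (((M : ℝ) ^ k)⁻¹)) := by
  have key : ∀ᵐ ω ∂(Measure.infinitePi μ), ∀ (M k : ℕ) (c : Fin (k + 1) → ℤ), 1 ≤ M →
      ¬ (M : ℤ) ∣ c (Fin.last k) → Tendsto (fun N : ℕ =>
        (∑ n ∈ range N, X (chg S ω) M k c n) / (N : ℂ)) atTop (𝓝 0) := by
    refine ae_all_iff.2 fun M => ae_all_iff.2 fun k => ae_all_iff.2 fun c => ?_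
    by_cases hM : 1 ≤ M
    · by_cases hd : (M : ℤ) ∣ c (Fin.last k)
      · exact Filter.Eventually.of_forall fun ω _ h => absurd hd h
      · obtain ⟨C, hC⟩ := h6 h1 h3 h4 h2 h5 μ S c₀ δ hc hδ hδ2 hμ M k c hM hd
        have h := h7 (Measure.infinitePi μ) (fun n ω => X (chg S ω) M k c n)
          (fun n => (((h3 μ 0).2 _ (loc_X h1 S M k c n)).1)) (fun n ω => norm_X _ M k c n)
          C (1 + 2 * δ) (by linarith) hC
        filter_upwards [h] with ω hω _ _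
        exact hω
    · exact Filter.Eventually.of_forall fun ω h => absurd h hM
  filter_upwards [key] with ω hω M k hM b
  have h := h8 M k (fun n => (pt (chg S ω) n : ℤ)) hM
    (fun k' _ c hc' => hω M k' c hM hc') b
  simpa using h

end Pool.Agent.U204.PN
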