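import Pool.Agent.U204.PN.Stm

set_option autoImplicit false

open MeasureTheory Filter Topology Finset

namespace Pool.Agent.U204.PN

theorem mem_chg_iff (S : Set ℕ) (ω : ℕ → Bool) (n : ℕ) :
    ¬ (n ∈ chg S ω ↔ n ∈ S) ↔ ω n = true := by
  simp only [chg, Set.mem_ofPred_eq]
  rcases hw : ω n with _ | _ <;> simp

/-- the coin with probability `e` of `true` -/
theorem exists_coin (e : ℝ) (h0 : 0 ≤ e) (h1 : e ≤ 1) :
    ∃ μ : Measure Bool, IsProbabilityMeasure μ ∧ μ.real {true} = e := by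
  refine ⟨ENNReal.ofReal (1 - e) • Measure.dirac false + ENNReal.ofReal e • Measure.dirac true,
    ⟨?_⟩, ?_⟩
  · rw [Measure.add_apply, Measure.smul_apply, Measure.smul_apply, measure_univ, measure_univ,
      smul_eq_mul, smul_eq_mul, mul_one, mul_one, ← ENNReal.ofReal_add (by linarith) h0]
    simp
  · rw [Measure.real, Measure.add_apply, Measure.smul_apply, Measure.smul_apply,
      Measure.dirac_apply' _ (measurableSet_singleton _),
      Measure.dirac_apply' _ (measurableSet_singleton _)]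
    simp [h0]

open Classical in
/-- the deterministic consequence -/
theorem few_changes (h1 : S_LOC) (h2 : S_ONE) (h3 : S_AVG) (h4 : S_TAIL) (h5 : S_COV) (h6 : S_MOM)
    (h7 : S_SLLN) (h8 : S_FOUR) (h9 : S_THIN) (S : Set ℕ) (θ : ℝ) (hθ : 1 / 2 < θ) :
    ∃ (A : Set ℕ) (C : ℝ), (∀ N : ℕ, (((range N).filter fun n => ¬ (n ∈ A ↔ n ∈ S)).card : ℝ) ≤
      C * (N : ℝ) ^ θ) ∧ ∀ M k : ℕ, 1 ≤ M → ∀ b : Fin k → ZMod M,
      Tendsto (fun N : ℕ => (((range N).filter fun n => ∀ j : Fin k,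
        (pt A (n + j) : ZMod M) = b j).card : ℝ) / N) atTop (𝓝 (((M : ℝ) ^ k)⁻¹)) := by
  set δ : ℝ := max (1 - θ) (1 / 4) with hδ
  have hδ0 : 0 < δ := lt_of_lt_of_le (by norm_num) (le_max_right _ _)
  have hδ1 : δ < 1 / 2 := max_lt (by linarith) (by norm_num)
  have hδθ : 1 - δ ≤ θ := by
    have := le_max_left (1 - θ) (1 / 4)
    linarith
  have hb : ∀ n : ℕ, 0 ≤ ((n : ℝ) + 1) ^ (-δ) ∧ ((n : ℝ) + 1) ^ (-δ) ≤ 1 := fun n => by
    refine ⟨by positivity, Real.rpow_le_one_of_one_le_of_nonpos ?_ (by linarith)⟩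
    have : (0 : ℝ) ≤ n := n.cast_nonneg
    linarith
  choose μ hμ1 hμ2 using fun n : ℕ => exists_coin (1 / 2 * ((n : ℝ) + 1) ^ (-δ))
    (by have := (hb n).1; positivity) (by have := (hb n).2; linarith)
  have : ∀ n, IsProbabilityMeasure (μ n) := hμ1
  have ha := assembly h1 h2 h3 h4 h5 h6 h7 h8 μ S (1 / 2) δ (by norm_num) hδ0 hδ1
    (fun n => ⟨(hμ2 n).ge, by rw [hμ2 n]; have := (hb n).2; linarith⟩)
  have ht := h9 μ (1 / 2) δ hδ0 (by linarith) (fun n => (hμ2 n).le)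
  obtain ⟨ω, hω1, C, hC⟩ := (ha.and ht).exists
  refine ⟨chg S ω, |C|, fun N => ?_, hω1⟩
  rcases Nat.eq_zero_or_pos N with rfl | hN
  · simp
    positivity
  · have hN1 : (1 : ℝ) ≤ N := by exact_mod_cast hN
    calc (((range N).filter fun n => ¬ (n ∈ chg S ω ↔ n ∈ S)).card : ℝ)
        = (((range N).filter fun n => ω n = true).card : ℝ) := by
          congr 2
          exact Finset.filter_congr fun n _ => mem_chg_iff S ω n
      _ ≤ C * (N : ℝ) ^ (1 - δ) := hC N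
      _ ≤ |C| * (N : ℝ) ^ (1 - δ) := by
          exact mul_le_mul_of_nonneg_right (le_abs_self C) (by positivity)
      _ ≤ |C| * (N : ℝ) ^ θ := by
          exact mul_le_mul_of_nonneg_left (Real.rpow_le_rpow_of_exponent_le hN1 hδθ) (abs_nonneg C)

end Pool.Agent.U204.PN
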